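import Pool.Agent.Q257.ZQ.Prod

/-!
# `CPQM` implies `CPM_le` in ZF

In every model of Zermelo set theory (so in every model of ZF): if every countable product of
quasi-metrizable spaces is quasi-metrizable, then every countable product of metrizable spaces is
metrizable. By `MP_ccf5e0_lc/BitopologicalProducts` every countable product of quasi-metrizable
bitopological spaces is quasi-metrizable; for spaces with a metric both topologies are the same,
and if a quasi-metric `d` of the product and its conjugate have the same topology, then
`d(x, y) + d(y, x)` is a metric of the product.
-/

namespace Pool.Agent.Results.MP_07d118_lc.MetrizableProducts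

open FirstOrder FirstOrder.Language
open Pool.Agent.Helper672.Plain (LSet Zermelo El)
open Pool.Agent.H635Amen (IsReals)
open Pool.Agent.Q257.ZQ

universe u

theorem result (M : Type u) [LSet.Structure M] [Zermelo M] (r : M) [Field (El r)]
    [LinearOrder (El r)] [IsStrictOrderedRing (El r)] (hr : IsReals r) (h : CPQM r) :
    CPMle r := by
  let _ := Pool.Agent.Helper672.Plain.toL M
  have : Pool.Agent.Helper672.ZFA.IsModel M :=
    Pool.Agent.Helper672.ZFA.H635.isModel_of_zermelo inferInstance
  exact cpmle_of hr (cpqmbi_of hr h)

end Pool.Agent.Results.MP_07d118_lc.MetrizableProducts
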